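import Pool.Agent.Helper35.BandTop.Grid

/-!
# Invariance of the mod 2 count along a path of sign patterns
-/

namespace Pool.Agent.Helper35.BandTop

open Finset

/-- `w` is constant on the cube with lower corner `(m, i, j)` -/
def CubeConst (w : ℕ → ℤ → ℤ → ZMod 2) (m i j : ℕ) : Prop :=
  ∀ a b c : ℕ, a ≤ 1 → b ≤ 1 → c ≤ 1 → w (m + a) ((i + b : ℕ) : ℤ) ((j + c : ℕ) : ℤ) = w m i j

lemma CubeConst.get {w : ℕ → ℤ → ℤ → ZMod 2} {m i j : ℕ} (h : CubeConst w m i j) :
    w m ((i : ℤ) + 1) j = w m i j ∧ w m i ((j : ℤ) + 1) = w m i j ∧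
    w m ((i : ℤ) + 1) ((j : ℤ) + 1) = w m i j ∧
    w (m + 1) i j = w m i j ∧
    w (m + 1) ((i : ℤ) + 1) j = w m i j ∧ w (m + 1) i ((j : ℤ) + 1) = w m i j ∧
    w (m + 1) ((i : ℤ) + 1) ((j : ℤ) + 1) = w m i j := by
  refine ⟨?_, ?_, ?_, ?_, ?_, ?_, ?_⟩
  · simpa using h 0 1 0 (by norm_num) (by norm_num) (by norm_num)
  · simpa using h 0 0 1 (by norm_num) (by norm_num) (by norm_num)
  · simpa using h 0 1 1 (by norm_num) (by norm_num) (by norm_num)
  · simpa using h 1 0 0 (by norm_num) (by norm_num) (by norm_num)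
  · simpa using h 1 1 0 (by norm_num) (by norm_num) (by norm_num)
  · simpa using h 1 0 1 (by norm_num) (by norm_num) (by norm_num)
  · simpa using h 1 1 1 (by norm_num) (by norm_num) (by norm_num)

theorem T_step (N : ℕ) (χ s r : ℕ → ℤ → ℤ → ZMod 2)
    (hχ1 : ∀ m i j, χ m (i + N) j = χ m i j) (hχ2 : ∀ m i j, χ m i (j + N) = χ m i j)
    (hs1 : ∀ m i j, s m (i + N) j = s m i j + 1) (hs2 : ∀ m i j, s m i (j + N) = s m i j + 1)
    (hr1 : ∀ m i j, r m (i + N) j = r m i j) (hr2 : ∀ m i j, r m i (j + N) = r m i j + 1)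
    (m : ℕ)
    (h : ∀ i j : ℕ, i < N → j < N →
      CubeConst χ m i j ∨ CubeConst s m i j ∨ CubeConst r m i j) :
    T N (χ m) (s m) (r m) = T N (χ (m + 1)) (s (m + 1)) (r (m + 1)) := by
  calc T N (χ m) (s m) (r m) = T N (χ (m + 1)) (s m) (r m) := by
        apply T_chi
        intro i j hi hj
        rcases h i j hi hj with h1 | h1 | h1
        · obtain ⟨g1, g2, g3, g4, g5, g6, g7⟩ := h1.get
          rw [g4]; simp [add_self2]
        · obtain ⟨g1, g2, g3, g4, g5, g6, g7⟩ := h1.get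
          rw [g1, g2]; simp [add_self2]
        · obtain ⟨g1, g2, g3, g4, g5, g6, g7⟩ := h1.get
          rw [g1, g2, g3]; simp [add_self2]
    _ = T N (χ (m + 1)) (s (m + 1)) (r m) := by
        apply T_s N _ _ _ _ (hχ1 _) (hχ2 _) (hs1 _) (hs2 _) (hs1 _) (hs2 _) (hr1 _) (hr2 _)
        intro i j hi hj
        rcases h i j hi hj with h1 | h1 | h1
        · obtain ⟨g1, g2, g3, g4, g5, g6, g7⟩ := h1.get
          rw [g4, g5, g6]; simp [add_self2]
        · obtain ⟨g1, g2, g3, g4, g5, g6, g7⟩ := h1.get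
          rw [g1, g2, g5, g6]; simp [add_self2]
        · obtain ⟨g1, g2, g3, g4, g5, g6, g7⟩ := h1.get
          rw [g1, g2, g3]; simp [add_self2]
    _ = T N (χ (m + 1)) (s (m + 1)) (r (m + 1)) := by
        apply T_r N _ _ _ _ (hχ1 _) (hχ2 _) (hs1 _) (hs2 _) (hr1 _) (hr2 _) (hr1 _) (hr2 _)
        intro i j hi hj
        rcases h i j hi hj with h1 | h1 | h1
        · obtain ⟨g1, g2, g3, g4, g5, g6, g7⟩ := h1.get
          rw [g4, g5, g6]; simp [add_self2]
        · obtain ⟨g1, g2, g3, g4, g5, g6, g7⟩ := h1.get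
          rw [g5, g6, g7]; simp [add_self2]
        · obtain ⟨g1, g2, g3, g4, g5, g6, g7⟩ := h1.get
          rw [g3, g7]; simp [add_self2]

theorem T_const (N : ℕ) (χ s r : ℕ → ℤ → ℤ → ZMod 2)
    (hχ1 : ∀ m i j, χ m (i + N) j = χ m i j) (hχ2 : ∀ m i j, χ m i (j + N) = χ m i j)
    (hs1 : ∀ m i j, s m (i + N) j = s m i j + 1) (hs2 : ∀ m i j, s m i (j + N) = s m i j + 1)
    (hr1 : ∀ m i j, r m (i + N) j = r m i j) (hr2 : ∀ m i j, r m i (j + N) = r m i j + 1)
    (M : ℕ)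
    (h : ∀ m i j : ℕ, m < M → i < N → j < N →
      CubeConst χ m i j ∨ CubeConst s m i j ∨ CubeConst r m i j) :
    T N (χ 0) (s 0) (r 0) = T N (χ M) (s M) (r M) := by
  induction M with
  | zero => rfl
  | succ M ih =>
    rw [ih (fun m i j hm => h m i j (by omega))]
    exact T_step N χ s r hχ1 hχ2 hs1 hs2 hr1 hr2 M (fun i j => h M i j (by omega))

/-- If the `r`-signs only change in the second direction between `0` and `1`, the count is the
row count. -/
theorem T_row (N : ℕ) (hN : 0 < N) (χ s r : ℤ → ℤ → ZMod 2)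
    (hr : ∀ i j : ℕ, i ≤ N → j ≤ N → r i j = if j = 0 then 1 else 0) :
    T N χ s r = ∑ i ∈ range N, χ i 0 * (s i 0 + s (i + 1) 0) := by
  unfold T
  apply sum_congr rfl
  intro i hi
  have hi' := mem_range.1 hi
  rw [sum_eq_single 0]
  · have e1 := hr (i + 1) 0 (by omega) (by omega)
    have e2 := hr (i + 1) 1 (by omega) (by omega)
    have e3 := hr i 1 (by omega) (by omega)
    push_cast at e1 e2 e3
    simp only [Nat.cast_zero, zero_add]
    rw [e1, e2, e3]
    simp
  · intro j hj hj0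
    have hj' := mem_range.1 hj
    have e1 := hr (i + 1) j (by omega) (by omega)
    have e2 := hr (i + 1) (j + 1) (by omega) (by omega)
    have e3 := hr i (j + 1) (by omega) (by omega)
    push_cast at e1 e2 e3
    rw [e1, e2, e3]
    simp [hj0]
  · intro h0
    exact absurd (mem_range.2 hN) h0

end Pool.Agent.Helper35.BandTop
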