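import Mathlib

/-!
# A mod 2 counting lemma on a grid torus

`T N chi s r` is the value of the cup product `chi ∪ ds ∪ dr` on the triangulated `N × N` torus.
-/

namespace Pool.Agent.Helper35.BandTop

open Finset

lemma eq_of_add2 {a b : ZMod 2} (h : a + b = 0) : a = b := by
  revert a b; decide

lemma add_self2 (a : ZMod 2) : a + a = 0 := by
  revert a; decide

/-- The cup product `chi ∪ ds ∪ dr` summed over the triangles of the torus. -/
def T (N : ℕ) (χ s r : ℤ → ℤ → ZMod 2) : ZMod 2 :=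
  ∑ i ∈ range N, ∑ j ∈ range N,
    (χ i j * (s i j + s (i + 1) j) * (r (i + 1) j + r (i + 1) (j + 1))
     + χ i j * (s i j + s i (j + 1)) * (r i (j + 1) + r (i + 1) (j + 1)))

lemma sum_shift (N : ℕ) (g : ℤ → ZMod 2) (hg : g N = g 0) :
    ∑ i ∈ range N, (g ((i : ℤ) + 1) + g i) = 0 := by
  have h : ∀ n : ℕ, ∑ i ∈ range n, (g ((i : ℤ) + 1) + g i) = g n + g 0 := by
    intro n
    induction n with
    | zero => simp [add_self2]
    | succ n ih =>
      rw [sum_range_succ, ih]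
      push_cast
      have := add_self2 (g (n : ℤ))
      linear_combination this
  rw [h, hg]
  exact add_self2 _

lemma stokes (N : ℕ) (cH cV cD : ℤ → ℤ → ZMod 2)
    (hV : ∀ j, cV N j = cV 0 j) (hH : ∀ i, cH i N = cH i 0) :
    ∑ i ∈ range N, ∑ j ∈ range N,
      ((cH i j + cV (i + 1) j + cD i j) + (cV i j + cH i (j + 1) + cD i j)) = 0 := by
  have h1 : ∀ i ∈ range N, ∑ j ∈ range N,
      ((cH i j + cV ((i : ℤ) + 1) j + cD i j) + (cV i j + cH i ((j : ℤ) + 1) + cD i j))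
      = ∑ j ∈ range N, (cV ((i : ℤ) + 1) j + cV i j) := by
    intro i _
    have e : ∀ j ∈ range N,
        ((cH i j + cV ((i : ℤ) + 1) j + cD i j) + (cV i j + cH i ((j : ℤ) + 1) + cD i j))
        = (cV ((i : ℤ) + 1) j + cV i j) + (cH i ((j : ℤ) + 1) + cH i j) := by
      intro j _
      have := add_self2 (cD i j)
      linear_combination this
    rw [sum_congr rfl e, sum_add_distrib]
    have h0 := sum_shift N (fun j => cH i j) (hH i)
    rw [h0, add_zero]
  rw [sum_congr rfl h1, sum_comm]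
  apply sum_eq_zero
  intro j _
  exact sum_shift N (fun i => cV i j) (hV j)

lemma T_chi (N : ℕ) (χ χ' s r : ℤ → ℤ → ZMod 2)
    (h : ∀ i j : ℕ, i < N → j < N →
      (χ i j + χ' i j) * (s i j + s (i + 1) j) * (r (i + 1) j + r (i + 1) (j + 1)) = 0 ∧
      (χ i j + χ' i j) * (s i j + s i (j + 1)) * (r i (j + 1) + r (i + 1) (j + 1)) = 0) :
    T N χ s r = T N χ' s r := by
  apply eq_of_add2
  unfold T
  rw [← sum_add_distrib]
  apply sum_eq_zero
  intro i hi
  rw [← sum_add_distrib]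
  apply sum_eq_zero
  intro j hj
  obtain ⟨h1, h2⟩ := h i j (mem_range.1 hi) (mem_range.1 hj)
  linear_combination h1 + h2

lemma T_s (N : ℕ) (χ s s' r : ℤ → ℤ → ZMod 2)
    (hχ1 : ∀ i j, χ (i + N) j = χ i j) (hχ2 : ∀ i j, χ i (j + N) = χ i j)
    (hs1 : ∀ i j, s (i + N) j = s i j + 1) (hs2 : ∀ i j, s i (j + N) = s i j + 1)
    (hs1' : ∀ i j, s' (i + N) j = s' i j + 1) (hs2' : ∀ i j, s' i (j + N) = s' i j + 1)
    (hr1 : ∀ i j, r (i + N) j = r i j) (hr2 : ∀ i j, r i (j + N) = r i j + 1)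
    (h : ∀ i j : ℕ, i < N → j < N →
      (χ i j + χ (i + 1) j) * (s (i + 1) j + s' (i + 1) j)
        * (r (i + 1) j + r (i + 1) (j + 1)) = 0 ∧
      (χ i j + χ i (j + 1)) * (s i (j + 1) + s' i (j + 1))
        * (r i (j + 1) + r (i + 1) (j + 1)) = 0) :
    T N χ s r = T N χ s' r := by
  apply eq_of_add2
  unfold T
  rw [← sum_add_distrib]
  have e : ∀ i ∈ range N,
      (∑ j ∈ range N, (χ i j * (s i j + s ((i : ℤ) + 1) j)
          * (r ((i : ℤ) + 1) j + r ((i : ℤ) + 1) ((j : ℤ) + 1))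
        + χ i j * (s i j + s i ((j : ℤ) + 1))
          * (r i ((j : ℤ) + 1) + r ((i : ℤ) + 1) ((j : ℤ) + 1)))
      + ∑ j ∈ range N, (χ i j * (s' i j + s' ((i : ℤ) + 1) j)
          * (r ((i : ℤ) + 1) j + r ((i : ℤ) + 1) ((j : ℤ) + 1))
        + χ i j * (s' i j + s' i ((j : ℤ) + 1))
          * (r i ((j : ℤ) + 1) + r ((i : ℤ) + 1) ((j : ℤ) + 1))))
      = ∑ j ∈ range N,
        (((χ i j * (s i j + s' i j) * (r i j + r ((i : ℤ) + 1) j))
          + (χ ((i : ℤ) + 1) j * (s ((i : ℤ) + 1) j + s' ((i : ℤ) + 1) j)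
            * (r ((i : ℤ) + 1) j + r ((i : ℤ) + 1) ((j : ℤ) + 1)))
          + (χ i j * (s i j + s' i j) * (r i j + r ((i : ℤ) + 1) ((j : ℤ) + 1))))
         + ((χ i j * (s i j + s' i j) * (r i j + r i ((j : ℤ) + 1)))
          + (χ i ((j : ℤ) + 1) * (s i ((j : ℤ) + 1) + s' i ((j : ℤ) + 1))
            * (r i ((j : ℤ) + 1) + r ((i : ℤ) + 1) ((j : ℤ) + 1)))
          + (χ i j * (s i j + s' i j) * (r i j + r ((i : ℤ) + 1) ((j : ℤ) + 1))))) := by
    intro i hi
    rw [← sum_add_distrib]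
    apply sum_congr rfl
    intro j hj
    obtain ⟨h1, h2⟩ := h i j (mem_range.1 hi) (mem_range.1 hj)
    generalize χ i j = c0 at *
    generalize χ ((i : ℤ) + 1) j = c1 at *
    generalize χ i ((j : ℤ) + 1) = c2 at *
    generalize s i j = s0 at *
    generalize s ((i : ℤ) + 1) j = s1 at *
    generalize s i ((j : ℤ) + 1) = s2 at *
    generalize s' i j = t0 at *
    generalize s' ((i : ℤ) + 1) j = t1 at *
    generalize s' i ((j : ℤ) + 1) = t2 at *
    generalize r i j = r0 at *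
    generalize r ((i : ℤ) + 1) j = r1 at *
    generalize r i ((j : ℤ) + 1) = r2 at *
    generalize r ((i : ℤ) + 1) ((j : ℤ) + 1) = r3 at *
    have two : (2 : ZMod 2) = 0 := rfl
    have k1 : c0 * (s1 + t1) * (r1 + r3) = c1 * (s1 + t1) * (r1 + r3) := by
      apply eq_of_add2
      linear_combination h1
    have k2 : c0 * (s2 + t2) * (r2 + r3) = c2 * (s2 + t2) * (r2 + r3) := by
      apply eq_of_add2
      linear_combination h2
    linear_combination k1 + k2 - c0 * (s0 + t0) * (r0) * two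
      + 0 * c0 * (s0 + t0) * r3 * two - c0 * (s0 + t0) * r0 * two
  rw [sum_congr rfl e]
  have hr0 : ∀ i j, r (i + N) j + r i j = 0 := by
    intro i j
    rw [hr1]; exact add_self2 _
  refine stokes N (fun i j => χ i j * (s i j + s' i j) * (r i j + r (i + 1) j))
    (fun i j => χ i j * (s i j + s' i j) * (r i j + r i (j + 1)))
    (fun i j => χ i j * (s i j + s' i j) * (r i j + r (i + 1) (j + 1))) ?_ ?_
  · intro j
    have a1 := hχ1 0 j
    have a2 := hs1 0 j
    have a3 := hs1' 0 j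
    have a4 := hr1 0 j
    have a5 := hr1 0 (j + 1)
    rw [zero_add] at a1 a2 a3 a4 a5
    simp only [a1, a2, a3, a4, a5]
    have two : (2 : ZMod 2) = 0 := rfl
    linear_combination (χ 0 j * (r 0 j + r 0 (j + 1))) * two
  · intro i
    have a1 := hχ2 i 0
    have a2 := hs2 i 0
    have a3 := hs2' i 0
    have a4 := hr2 i 0
    have a5 := hr2 (i + 1) 0
    rw [zero_add] at a1 a2 a3 a4 a5
    simp only [a1, a2, a3, a4, a5]
    have two : (2 : ZMod 2) = 0 := rfl
    linear_combination (χ i 0 * (r i 0 + r (i + 1) 0 + s i 0 + s' i 0 + 2)) * two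

lemma T_r (N : ℕ) (χ s r r' : ℤ → ℤ → ZMod 2)
    (hχ1 : ∀ i j, χ (i + N) j = χ i j) (hχ2 : ∀ i j, χ i (j + N) = χ i j)
    (hs1 : ∀ i j, s (i + N) j = s i j + 1) (hs2 : ∀ i j, s i (j + N) = s i j + 1)
    (hr1 : ∀ i j, r (i + N) j = r i j) (hr2 : ∀ i j, r i (j + N) = r i j + 1)
    (hr1' : ∀ i j, r' (i + N) j = r' i j) (hr2' : ∀ i j, r' i (j + N) = r' i j + 1)
    (h : ∀ i j : ℕ, i < N → j < N →
      (χ i j + χ (i + 1) j) * (s (i + 1) j + s (i + 1) (j + 1))
        * (r (i + 1) (j + 1) + r' (i + 1) (j + 1)) = 0 ∧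
      (χ i j + χ i (j + 1)) * (s i (j + 1) + s (i + 1) (j + 1))
        * (r (i + 1) (j + 1) + r' (i + 1) (j + 1)) = 0) :
    T N χ s r = T N χ s r' := by
  apply eq_of_add2
  unfold T
  rw [← sum_add_distrib]
  have e : ∀ i ∈ range N,
      (∑ j ∈ range N, (χ i j * (s i j + s ((i : ℤ) + 1) j)
          * (r ((i : ℤ) + 1) j + r ((i : ℤ) + 1) ((j : ℤ) + 1))
        + χ i j * (s i j + s i ((j : ℤ) + 1))
          * (r i ((j : ℤ) + 1) + r ((i : ℤ) + 1) ((j : ℤ) + 1)))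
      + ∑ j ∈ range N, (χ i j * (s i j + s ((i : ℤ) + 1) j)
          * (r' ((i : ℤ) + 1) j + r' ((i : ℤ) + 1) ((j : ℤ) + 1))
        + χ i j * (s i j + s i ((j : ℤ) + 1))
          * (r' i ((j : ℤ) + 1) + r' ((i : ℤ) + 1) ((j : ℤ) + 1))))
      = ∑ j ∈ range N,
        (((χ i j * (s i j + s ((i : ℤ) + 1) j) * (r ((i : ℤ) + 1) j + r' ((i : ℤ) + 1) j))
          + (χ ((i : ℤ) + 1) j * (s ((i : ℤ) + 1) j + s ((i : ℤ) + 1) ((j : ℤ) + 1))
            * (r ((i : ℤ) + 1) ((j : ℤ) + 1) + r' ((i : ℤ) + 1) ((j : ℤ) + 1)))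
          + (χ i j * (s i j + s ((i : ℤ) + 1) ((j : ℤ) + 1))
            * (r ((i : ℤ) + 1) ((j : ℤ) + 1) + r' ((i : ℤ) + 1) ((j : ℤ) + 1))))
         + ((χ i j * (s i j + s i ((j : ℤ) + 1)) * (r i ((j : ℤ) + 1) + r' i ((j : ℤ) + 1)))
          + (χ i ((j : ℤ) + 1) * (s i ((j : ℤ) + 1) + s ((i : ℤ) + 1) ((j : ℤ) + 1))
            * (r ((i : ℤ) + 1) ((j : ℤ) + 1) + r' ((i : ℤ) + 1) ((j : ℤ) + 1)))
          + (χ i j * (s i j + s ((i : ℤ) + 1) ((j : ℤ) + 1))
            * (r ((i : ℤ) + 1) ((j : ℤ) + 1) + r' ((i : ℤ) + 1) ((j : ℤ) + 1))))) := by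
    intro i hi
    rw [← sum_add_distrib]
    apply sum_congr rfl
    intro j hj
    obtain ⟨h1, h2⟩ := h i j (mem_range.1 hi) (mem_range.1 hj)
    generalize χ i j = c0 at *
    generalize χ ((i : ℤ) + 1) j = c1 at *
    generalize χ i ((j : ℤ) + 1) = c2 at *
    generalize s i j = s0 at *
    generalize s ((i : ℤ) + 1) j = s1 at *
    generalize s i ((j : ℤ) + 1) = s2 at *
    generalize s ((i : ℤ) + 1) ((j : ℤ) + 1) = s3 at *
    generalize r ((i : ℤ) + 1) j = r1 at *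
    generalize r i ((j : ℤ) + 1) = r2 at *
    generalize r ((i : ℤ) + 1) ((j : ℤ) + 1) = r3 at *
    generalize r' ((i : ℤ) + 1) j = q1 at *
    generalize r' i ((j : ℤ) + 1) = q2 at *
    generalize r' ((i : ℤ) + 1) ((j : ℤ) + 1) = q3 at *
    have two : (2 : ZMod 2) = 0 := rfl
    have k1 : c0 * (s1 + s3) * (r3 + q3) = c1 * (s1 + s3) * (r3 + q3) := by
      apply eq_of_add2
      linear_combination h1
    have k2 : c0 * (s2 + s3) * (r3 + q3) = c2 * (s2 + s3) * (r3 + q3) := by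
      apply eq_of_add2
      linear_combination h2
    linear_combination k1 + k2 - 2 * c0 * s3 * (r3 + q3) * two
  rw [sum_congr rfl e]
  refine stokes N
    (fun i j => χ i j * (s i j + s (i + 1) j) * (r (i + 1) j + r' (i + 1) j))
    (fun i j => χ i j * (s i j + s i (j + 1)) * (r i (j + 1) + r' i (j + 1)))
    (fun i j => χ i j * (s i j + s (i + 1) (j + 1))
      * (r (i + 1) (j + 1) + r' (i + 1) (j + 1))) ?_ ?_
  · intro j
    have a1 := hχ1 0 j
    have a2 := hs1 0 j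
    have a3 := hs1 0 (j + 1)
    have a4 := hr1 0 (j + 1)
    have a5 := hr1' 0 (j + 1)
    rw [zero_add] at a1 a2 a3 a4 a5
    simp only [a1, a2, a3, a4, a5]
    have two : (2 : ZMod 2) = 0 := rfl
    linear_combination (χ 0 j * (r 0 (j + 1) + r' 0 (j + 1))) * two
  · intro i
    have a1 := hχ2 i 0
    have a2 := hs2 i 0
    have a3 := hs2 (i + 1) 0
    have a4 := hr2 (i + 1) 0
    have a5 := hr2' (i + 1) 0
    rw [zero_add] at a1 a2 a3 a4 a5
    simp only [a1, a2, a3, a4, a5]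
    have two : (2 : ZMod 2) = 0 := rfl
    linear_combination (χ i 0 * (s i 0 + s (i + 1) 0 + r (i + 1) 0 + r' (i + 1) 0 + 2)) * two

end Pool.Agent.Helper35.BandTop
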