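import Pool.Agent.Helper35.BandTop.Sign

/-!
# The row count at the ends
-/

namespace Pool.Agent.Helper35.BandTop

open Finset Real

lemma int_cast_even {k : ℤ} (h : Even k) : ((k : ℤ) : ZMod 2) = 0 := by
  rw [ZMod.intCast_zmod_eq_zero_iff_dvd]
  exact_mod_cast h.two_dvd

lemma int_cast_odd {k : ℤ} (h : Odd k) : ((k : ℤ) : ZMod 2) = 1 := by
  obtain ⟨l, rfl⟩ := h
  push_cast
  have : (2 : ZMod 2) = 0 := rfl
  rw [this]; ring

lemma sin_floor (u : ℝ) : sin (π * u) = (-1 : ℝ) ^ ⌊u⌋ * sin (π * Int.fract u) := by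
  have h : π * u = π * Int.fract u + ⌊u⌋ * π := by
    have := Int.fract_add_floor u
    linear_combination (-π) * this
  conv_lhs => rw [h, Real.sin_add_int_mul_pi]

lemma sg_sin (u : ℝ) : sg (sin (π * u)) ((⌊u⌋ : ℤ) : ZMod 2) = ((⌊u⌋ : ℤ) : ZMod 2) := by
  rcases eq_or_lt_of_le (Int.fract_nonneg u) with h0 | h0
  · have : sin (π * u) = 0 := by rw [sin_floor, ← h0]; simp
    rw [this]
    simp [sg]
  · have h1 := Int.fract_lt_one u
    have hs : 0 < sin (π * Int.fract u) := by
      apply sin_pos_of_pos_of_lt_pi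
      · have := pi_pos; positivity
      · have := pi_pos; nlinarith
    rcases Int.even_or_odd ⌊u⌋ with he | ho
    · have : 0 < sin (π * u) := by
        rw [sin_floor, he.neg_one_zpow]; linarith
      rw [int_cast_even he]
      simp [sg, this, this.le]
    · have : sin (π * u) < 0 := by
        rw [sin_floor, ho.neg_one_zpow]; linarith
      rw [int_cast_odd ho]
      simp [sg, this]

lemma sum_window (n : ℕ) (c : ℤ → ZMod 2) (hc : ∀ k, c (k + n) = c k) (a : ℤ) :
    ∑ l ∈ range n, c (a + l) = ∑ l ∈ range n, c l := by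
  have step : ∀ a : ℤ, ∑ l ∈ range n, c (a + 1 + l) = ∑ l ∈ range n, c (a + l) := by
    intro a
    have h1 : ∑ l ∈ range (n + 1), c (a + l) = ∑ l ∈ range n, c (a + 1 + l) + c (a + 0) := by
      rw [sum_range_succ']
      congr 1
      apply sum_congr rfl
      intro l _
      congr 1
      push_cast
      ring
    have h2 : ∑ l ∈ range (n + 1), c (a + l) = ∑ l ∈ range n, c (a + l) + c (a + n) := by
      rw [sum_range_succ]
    rw [hc] at h2
    rw [add_zero] at h1
    exact add_right_cancel (h1.symm.trans h2)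
  have key : ∀ a : ℕ, (∑ l ∈ range n, c ((a : ℤ) + l) = ∑ l ∈ range n, c l) ∧
      (∑ l ∈ range n, c (-(a : ℤ) + l) = ∑ l ∈ range n, c l) := by
    intro a
    induction a with
    | zero => simp
    | succ a ih =>
      constructor
      · push_cast
        rw [step, ih.1]
      · have := step (-((a + 1 : ℕ) : ℤ))
        rw [← this, ← ih.2]
        apply sum_congr rfl
        intro l _
        congr 1
        push_cast
        ring
  rcases Int.eq_nat_or_neg a with ⟨b, rfl | rfl⟩
  · exact (key b).1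
  · exact (key b).2

/-- Abstract row count: the floors `F i` of the points increase by `0` or `1`. -/
lemma row_count (N n : ℕ) (F : ℕ → ℤ) (χ : ℕ → ZMod 2) (c : ℤ → ZMod 2)
    (hc : ∀ k, c (k + n) = c k)
    (hF : ∀ i, i < N → F (i + 1) = F i ∨ F (i + 1) = F i + 1)
    (hN : F N = F 0 + n)
    (hχ : ∀ i, i < N → F (i + 1) = F i + 1 → χ i = c (F (i + 1))) :
    ∑ i ∈ range N, χ i * (((F i : ℤ) : ZMod 2) + ((F (i + 1) : ℤ) : ZMod 2))
      = ∑ l ∈ range n, c l := by
  have mono : ∀ i, i ≤ N → 0 ≤ F i - F 0 := by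
    intro i
    induction i with
    | zero => intro _; simp
    | succ i ih =>
      intro hi
      have := ih (by omega)
      rcases hF i (by omega) with h | h <;> omega
  have key : ∀ i, i ≤ N →
      ∑ i ∈ range i, χ i * (((F i : ℤ) : ZMod 2) + ((F (i + 1) : ℤ) : ZMod 2))
        = ∑ l ∈ range (F i - F 0).toNat, c (F 0 + 1 + l) := by
    intro i
    induction i with
    | zero => intro _; simp
    | succ i ih =>
      intro hi
      rw [sum_range_succ, ih (by omega)]
      have m0 := mono i (by omega)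
      rcases hF i (by omega) with h | h
      · rw [h, add_self2]; simp
      · have e : (F (i + 1) - F 0).toNat = (F i - F 0).toNat + 1 := by omega
        rw [e, sum_range_succ, hχ i (by omega) h, h]
        have e2 : F 0 + 1 + ((F i - F 0).toNat : ℤ) = F i + 1 := by omega
        rw [e2]
        have e3 : ((F i : ℤ) : ZMod 2) + (((F i + 1 : ℤ)) : ZMod 2) = 1 := by
          push_cast
          have := add_self2 ((F i : ℤ) : ZMod 2)
          linear_combination this
        rw [e3, mul_one]
  rw [key N le_rfl, hN]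
  have e : (F 0 + (n : ℤ) - F 0).toNat = n := by omega
  rw [e]
  exact sum_window n c hc (F 0 + 1)

/-- The row count of `sin (n (x - t0))` weighted with `[0 < h]`. -/
theorem row_sin (N n M : ℕ) (hn : 0 < n) (hM : 1 < M) (hNM : N = n * M) (t0 : ℝ) (h : ℝ → ℝ)
    (hper : ∀ x, h (x + π) = h x) (δ : ℝ)
    (hclose : ∀ x x' : ℝ, x ∈ Set.Icc 0 π → x' ∈ Set.Icc 0 π → |x - x'| ≤ π / N →
      |h x - h x'| < δ)
    (hlow : ∀ x ∈ Set.Icc 0 π, sin (n * (x - t0)) = 0 → δ ≤ |h x|) :
    ∑ i ∈ range N, (if 0 < h (π * i / N) then (1 : ZMod 2) else 0) *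
        (((⌊(i : ℝ) / M - n * t0 / π⌋ : ℤ) : ZMod 2)
          + ((⌊((i + 1 : ℕ) : ℝ) / M - n * t0 / π⌋ : ℤ) : ZMod 2))
      = ∑ k ∈ range n, (if 0 < h (t0 + π * k / n) then (1 : ZMod 2) else 0) := by
  have hn' : (0 : ℝ) < n := by exact_mod_cast hn
  have hM' : (1 : ℝ) < M := by exact_mod_cast hM
  have hN0 : 0 < N := by rw [hNM]; exact Nat.mul_pos hn (by omega)
  have hN' : (0 : ℝ) < N := by exact_mod_cast hN0
  have hNM' : (N : ℝ) = n * M := by rw [hNM]; push_cast; ring
  have hp := pi_pos
  have hp0 := pi_ne_zero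
  set F : ℕ → ℤ := fun i => ⌊(i : ℝ) / M - n * t0 / π⌋ with hFdef
  set c : ℤ → ZMod 2 := fun k => if 0 < h (t0 + π * k / n) then (1 : ZMod 2) else 0 with hcdef
  have hMinv : (1 : ℝ) / M < 1 := by
    rw [div_lt_one (by linarith)]; exact hM'
  have hMpos : (0 : ℝ) < 1 / M := by positivity
  have hstep : ∀ i : ℕ, F (i + 1) = F i ∨ F (i + 1) = F i + 1 := by
    intro i
    have e : ((i + 1 : ℕ) : ℝ) / M - n * t0 / π = ((i : ℝ) / M - n * t0 / π) + 1 / M := by
      push_cast; ring
    have h1 : F i ≤ F (i + 1) := by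
      simp only [hFdef]
      apply Int.floor_le_floor
      rw [e]; linarith
    have h2 : F (i + 1) < F i + 2 := by
      simp only [hFdef]
      rw [Int.floor_lt, e]
      have := Int.lt_floor_add_one ((i : ℝ) / M - n * t0 / π)
      push_cast
      linarith
    omega
  have hlast : F N = F 0 + n := by
    simp only [hFdef]
    have e : (N : ℝ) / M - n * t0 / π = (((0 : ℕ) : ℝ) / M - n * t0 / π) + ((n : ℤ) : ℝ) := by
      rw [hNM']; field_simp; push_cast; ring
    rw [e, Int.floor_add_intCast]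
  have hc : ∀ k : ℤ, c (k + n) = c k := by
    intro k
    simp only [hcdef]
    have e : t0 + π * ((k + n : ℤ) : ℝ) / n = (t0 + π * k / n) + π := by
      push_cast; field_simp; ring
    rw [e, hper]
  have hχ : ∀ i, i < N → F (i + 1) = F i + 1 →
      (if 0 < h (π * i / N) then (1 : ZMod 2) else 0) = c (F (i + 1)) := by
    intro i hi hF
    simp only [hcdef]
    set k : ℤ := F (i + 1) with hk
    set xs : ℝ := t0 + π * k / n with hxs
    have h1 : (k : ℝ) ≤ ((i + 1 : ℕ) : ℝ) / M - n * t0 / π := by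
      have := Int.floor_le (((i + 1 : ℕ) : ℝ) / M - n * t0 / π)
      exact this
    have h2 : (i : ℝ) / M - n * t0 / π < (k : ℝ) := by
      have := Int.lt_floor_add_one ((i : ℝ) / M - n * t0 / π)
      have e : ((F i : ℤ) : ℝ) + 1 = (k : ℝ) := by rw [hF]; push_cast; ring
      have e' : ((F i : ℤ) : ℝ) = ((⌊(i : ℝ) / M - n * t0 / π⌋ : ℤ) : ℝ) := rfl
      rw [← e'] at this
      linarith
    have h3 : xs ≤ π * ((i + 1 : ℕ) : ℝ) / N := by
      have e : π * ((i + 1 : ℕ) : ℝ) / N - xs
          = (π / n) * ((((i + 1 : ℕ) : ℝ) / M - n * t0 / π) - k) := by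
        rw [hxs, hNM']; field_simp; ring
      have : 0 ≤ (π / n) * ((((i + 1 : ℕ) : ℝ) / M - n * t0 / π) - k) := by
        apply mul_nonneg (by positivity) (by linarith)
      linarith
    have h4 : π * (i : ℝ) / N < xs := by
      have e : xs - π * (i : ℝ) / N = (π / n) * (k - ((i : ℝ) / M - n * t0 / π)) := by
        rw [hxs, hNM']; field_simp; ring
      have : 0 < (π / n) * (k - ((i : ℝ) / M - n * t0 / π)) := by
        apply mul_pos (by positivity) (by linarith)
      linarith
    have m1 := grid_mem hN0 (show i ≤ N by omega)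
    have m2 := grid_mem hN0 (show i + 1 ≤ N by omega)
    have m3 : xs ∈ Set.Icc 0 π := ⟨by linarith [m1.1], by linarith [m2.2]⟩
    have h5 : |π * (i : ℝ) / N - xs| ≤ π / N := by
      rw [abs_sub_comm, abs_of_nonneg (by linarith)]
      have e : π * ((i + 1 : ℕ) : ℝ) / N = π * (i : ℝ) / N + π / N := by
        push_cast; ring
      linarith
    have h6 := hclose _ _ m1 m3 h5
    have h7 : sin (n * (xs - t0)) = 0 := by
      have e : (n : ℝ) * (xs - t0) = k * π := by rw [hxs]; field_simp; ring
      rw [e]; exact Real.sin_int_mul_pi k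
    have h8 := hlow xs m3 h7
    have h9 : 0 < h (π * (i : ℝ) / N) ↔ 0 < h xs := by
      rw [abs_lt] at h6
      constructor
      · intro hp1
        by_contra hcon
        push Not at hcon
        rw [abs_of_nonpos hcon] at h8
        linarith [h6.1, h6.2]
      · intro hp1
        rw [abs_of_pos hp1] at h8
        linarith [h6.1, h6.2]
    by_cases hh : 0 < h xs
    · rw [if_pos hh, if_pos (h9.2 hh)]
    · rw [if_neg hh, if_neg (fun h' => hh (h9.1 h'))]
  exact row_count N n F (fun i => if 0 < h (π * i / N) then (1 : ZMod 2) else 0) c hc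
    (fun i _ => hstep i) hlast hχ

end Pool.Agent.Helper35.BandTop
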