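import Pool.Agent.Helper35.BandTop.Cube

/-!
# Sign patterns of continuous functions on a fine grid
-/

namespace Pool.Agent.Helper35.BandTop

open Finset Real

/-- Sign of a real number as an element of `ZMod 2`, with tie-break `k`. -/
noncomputable def sg (v : ℝ) (k : ZMod 2) : ZMod 2 := if v < 0 then 1 else if 0 < v then 0 else k

lemma sg_ne {v w : ℝ} {k l : ZMod 2} (h : sg v k ≠ sg w l) : |v| ≤ |v - w| := by
  unfold sg at h
  rcases lt_trichotomy v 0 with hv | hv | hv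
  · rcases lt_or_ge w 0 with hw | hw
    · exact absurd (by simp [hv, hw]) h
    · rw [abs_of_neg hv, abs_sub_comm, abs_of_nonneg (by linarith)]; linarith
  · subst hv; simp
  · rcases lt_or_ge 0 w with hw | hw
    · exact absurd (by simp [hv, hw, hv.le.not_gt, hw.le.not_gt]) h
    · rw [abs_of_pos hv, abs_of_nonneg (by linarith)]; linarith

lemma sg_neg (v : ℝ) (k : ZMod 2) : sg (-v) (k + 1) = sg v k + 1 := by
  have e : (1 : ZMod 2) + 1 = 0 := rfl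
  unfold sg
  rcases lt_trichotomy v 0 with hv | hv | hv
  · simp [hv, hv.le.not_gt, e]
  · subst hv; simp
  · simp [hv, hv.le.not_gt]

/-- The sign pattern of `v` on the grid of mesh `π / N`. -/
noncomputable def S (v : ℝ → ℝ → ℝ → ℝ) (k : ℕ → ℤ → ℤ → ZMod 2) (N : ℕ) (m : ℕ) (i j : ℤ) :
    ZMod 2 := sg (v (π * m / N) (π * i / N) (π * j / N)) (k m i j)

/-- closeness: `v` varies by less than `δ` at distance at most `η` in the cube `[0, π]^3` -/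
def Close (v : ℝ → ℝ → ℝ → ℝ) (η δ : ℝ) : Prop :=
  ∀ t x y t' x' y' : ℝ, t ∈ Set.Icc 0 π → x ∈ Set.Icc 0 π → y ∈ Set.Icc 0 π →
    t' ∈ Set.Icc 0 π → x' ∈ Set.Icc 0 π → y' ∈ Set.Icc 0 π →
    |t - t'| ≤ η → |x - x'| ≤ η → |y - y'| ≤ η → |v t x y - v t' x' y'| < δ

lemma Close.mono {v : ℝ → ℝ → ℝ → ℝ} {η η' δ : ℝ} (h : Close v η δ) (hη : η' ≤ η) :
    Close v η' δ := by
  intro t x y t' x' y' h1 h2 h3 h4 h5 h6 h7 h8 h9
  exact h t x y t' x' y' h1 h2 h3 h4 h5 h6 (h7.trans hη) (h8.trans hη) (h9.trans hη)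

lemma grid_mem {N a : ℕ} (hN : 0 < N) (ha : a ≤ N) : π * (a : ℝ) / N ∈ Set.Icc 0 π := by
  have hN' : (0 : ℝ) < N := by exact_mod_cast hN
  have ha' : (a : ℝ) ≤ N := by exact_mod_cast ha
  constructor
  · have := pi_pos; positivity
  · rw [div_le_iff₀ hN']
    exact mul_le_mul_of_nonneg_left ha' pi_pos.le

lemma grid_close {N a b : ℕ} (hN : 0 < N) (hb : b ≤ 1) :
    |π * (a : ℝ) / N - π * ((a + b : ℕ) : ℝ) / N| ≤ π / N := by
  have hN' : (0 : ℝ) < N := by exact_mod_cast hN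
  have hp := pi_pos
  have hb' : (b : ℝ) ≤ 1 := by exact_mod_cast hb
  have e : π * (a : ℝ) / N - π * ((a + b : ℕ) : ℝ) / N = -(π / N * b) := by
    push_cast; ring
  rw [e, abs_neg, abs_of_nonneg (by positivity)]
  have h1 : 0 ≤ π / N := by positivity
  nlinarith

lemma const_or {v : ℝ → ℝ → ℝ → ℝ} {δ : ℝ} {N : ℕ} (hN : 0 < N) (h : Close v (π / N) δ)
    (k : ℕ → ℤ → ℤ → ZMod 2) {m i j : ℕ} (hm : m < N) (hi : i < N) (hj : j < N)
    (hv : δ ≤ |v (π * m / N) (π * i / N) (π * j / N)|) :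
    CubeConst (S v k N) m i j := by
  intro a b c ha hb hc
  by_contra hne
  have h1 := sg_ne (Ne.symm hne)
  have h2 := h (π * (m : ℝ) / N) (π * (i : ℝ) / N) (π * (j : ℝ) / N)
    (π * ((m + a : ℕ) : ℝ) / N) (π * ((i + b : ℕ) : ℝ) / N) (π * ((j + c : ℕ) : ℝ) / N)
    (grid_mem hN (by omega)) (grid_mem hN (by omega)) (grid_mem hN (by omega))
    (grid_mem hN (by omega)) (grid_mem hN (by omega)) (grid_mem hN (by omega))
    (grid_close hN ha) (grid_close hN hb) (grid_close hN hc)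
  simp only [Int.cast_natCast] at h1
  linarith

lemma exists_close (v : ℝ → ℝ → ℝ → ℝ) (hc : Continuous fun p : ℝ × ℝ × ℝ => v p.1 p.2.1 p.2.2)
    {δ : ℝ} (hδ : 0 < δ) : ∃ η > 0, Close v η δ := by
  have hK : IsCompact (Set.Icc (0 : ℝ) π ×ˢ Set.Icc (0 : ℝ) π ×ˢ Set.Icc (0 : ℝ) π) :=
    isCompact_Icc.prod (isCompact_Icc.prod isCompact_Icc)
  have hu := hK.uniformContinuousOn_of_continuous (f := fun p : ℝ × ℝ × ℝ => v p.1 p.2.1 p.2.2)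
    hc.continuousOn
  rw [Metric.uniformContinuousOn_iff] at hu
  obtain ⟨η, hη, H⟩ := hu δ hδ
  refine ⟨η / 2, by positivity, ?_⟩
  intro t x y t' x' y' h1 h2 h3 h4 h5 h6 h7 h8 h9
  have := H (t, x, y) ⟨h1, h2, h3⟩ (t', x', y') ⟨h4, h5, h6⟩ ?_
  · rwa [Real.dist_eq] at this
  · rw [Prod.dist_eq, Prod.dist_eq]
    simp only [Real.dist_eq]
    have : η / 2 < η := by linarith
    exact max_lt (by linarith) (max_lt (by linarith) (by linarith))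

lemma exists_lower (e2 e3 f : ℝ → ℝ → ℝ → ℝ)
    (h2 : Continuous fun p : ℝ × ℝ × ℝ => e2 p.1 p.2.1 p.2.2)
    (h3 : Continuous fun p : ℝ × ℝ × ℝ => e3 p.1 p.2.1 p.2.2)
    (hf : Continuous fun p : ℝ × ℝ × ℝ => f p.1 p.2.1 p.2.2)
    (hne : ∀ t ∈ Set.Icc 0 π, ∀ x ∈ Set.Icc 0 π, ∀ y ∈ Set.Icc 0 π,
      ¬ (e2 t x y = 0 ∧ e3 t x y = 0 ∧ f t x y = 0)) :
    ∃ δ > 0, ∀ t ∈ Set.Icc 0 π, ∀ x ∈ Set.Icc 0 π, ∀ y ∈ Set.Icc 0 π,
      3 * δ ≤ |e2 t x y| + |e3 t x y| + |f t x y| := by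
  have hK : IsCompact (Set.Icc (0 : ℝ) π ×ˢ Set.Icc (0 : ℝ) π ×ˢ Set.Icc (0 : ℝ) π) :=
    isCompact_Icc.prod (isCompact_Icc.prod isCompact_Icc)
  have hn : (Set.Icc (0 : ℝ) π ×ˢ Set.Icc (0 : ℝ) π ×ˢ Set.Icc (0 : ℝ) π).Nonempty :=
    ⟨(0, 0, 0), ⟨⟨le_rfl, pi_pos.le⟩, ⟨le_rfl, pi_pos.le⟩, ⟨le_rfl, pi_pos.le⟩⟩⟩
  have hG : Continuous fun p : ℝ × ℝ × ℝ =>
      |e2 p.1 p.2.1 p.2.2| + |e3 p.1 p.2.1 p.2.2| + |f p.1 p.2.1 p.2.2| :=
    (h2.abs.add h3.abs).add hf.abs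
  obtain ⟨p, hp, hmin⟩ := hK.exists_isMinOn hn hG.continuousOn
  obtain ⟨t, x, y⟩ := p
  obtain ⟨ht, hx, hy⟩ := hp
  have hpos : 0 < |e2 t x y| + |e3 t x y| + |f t x y| := by
    by_contra hcon
    have a1 := abs_nonneg (e2 t x y)
    have a2 := abs_nonneg (e3 t x y)
    have a3 := abs_nonneg (f t x y)
    have b1 : |e2 t x y| = 0 := by linarith
    have b2 : |e3 t x y| = 0 := by linarith
    have b3 : |f t x y| = 0 := by linarith
    exact hne t ht x hx y hy ⟨abs_eq_zero.1 b1, abs_eq_zero.1 b2, abs_eq_zero.1 b3⟩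
  refine ⟨(|e2 t x y| + |e3 t x y| + |f t x y|) / 3, by positivity, ?_⟩
  intro t' ht' x' hx' y' hy'
  have := hmin (show (t', x', y') ∈ Set.Icc (0 : ℝ) π ×ˢ Set.Icc (0 : ℝ) π ×ˢ Set.Icc (0 : ℝ) π
    from ⟨ht', hx', hy'⟩)
  simp only [Set.mem_ofPred_eq] at this
  linarith

end Pool.Agent.Helper35.BandTop
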