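import Pool.Agent.Helper35.BandTop.Row
import Pool.Agent.Helper35.BandEnd

/-!
# Existence of a common zero
-/

namespace Pool.Agent.Helper35.BandTop

open Finset Real

lemma sg_mul {ε : ℝ} (hε : ε ≠ 0) (v : ℝ) (k : ZMod 2) :
    sg (ε * v) (k + (if ε < 0 then 1 else 0)) = sg v k + (if ε < 0 then 1 else 0) := by
  rcases lt_or_gt_of_ne hε with h | h
  · rw [if_pos h]
    have e : sg (ε * v) (k + 1) = sg (-((-ε) * v)) (k + 1) := by congr 1; ring
    rw [e, sg_neg]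
    congr 1
    unfold sg
    have h1 : (-ε * v < 0) ↔ (v < 0) := by
      constructor
      · intro h'; by_contra hc; push Not at hc
        have : 0 ≤ -ε * v := mul_nonneg (by linarith) hc
        linarith
      · intro h'; exact mul_neg_of_pos_of_neg (by linarith) h'
    have h2 : (0 < -ε * v) ↔ (0 < v) := by
      constructor
      · intro h'; exact pos_of_mul_pos_right h' (by linarith)
      · intro h'; exact mul_pos (by linarith) h'
    simp only [h1, h2]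
  · rw [if_neg h.le.not_gt, add_zero, add_zero]
    unfold sg
    have h1 : (ε * v < 0) ↔ (v < 0) := by
      constructor
      · intro h'; by_contra hc; push Not at hc
        have : 0 ≤ ε * v := mul_nonneg (by linarith) hc
        linarith
      · intro h'; exact mul_neg_of_pos_of_neg h h'
    have h2 : (0 < ε * v) ↔ (0 < v) := by
      constructor
      · intro h'; exact pos_of_mul_pos_right h' (by linarith)
      · intro h'; exact mul_pos h h'
    simp only [h1, h2]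

lemma end_sign {N n M : ℕ} (hn : 0 < n) (hM : 0 < M) (hNM : N = n * M) {ε : ℝ} (hε : ε ≠ 0)
    (t0 : ℝ) (g : ℝ → ℝ) (hg : ∀ x, g x = ε * sin (n * (x - t0))) (i : ℤ) (u : ℝ)
    (hu : u = i / M - n * t0 / π) :
    sg (g (π * i / N)) (((⌊u⌋ : ℤ) : ZMod 2) + (if ε < 0 then 1 else 0))
      = ((⌊u⌋ : ℤ) : ZMod 2) + (if ε < 0 then 1 else 0) := by
  rw [hg, sg_mul hε]
  congr 1
  have hn' : (n : ℝ) ≠ 0 := by exact_mod_cast hn.ne'
  have hM' : (M : ℝ) ≠ 0 := by exact_mod_cast hM.ne'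
  have hp := pi_ne_zero
  have e : (n : ℝ) * (π * i / N - t0) = π * u := by
    rw [hu, hNM]; push_cast; field_simp
  rw [e]
  exact sg_sin u

lemma S_x {v : ℝ → ℝ → ℝ → ℝ} {k : ℕ → ℤ → ℤ → ZMod 2} {N : ℕ} (hN : 0 < N)
    (hv : ∀ t x y, v t (x + π) y = - v t x y) (hk : ∀ m i j, k m (i + N) j = k m i j + 1)
    (m : ℕ) (i j : ℤ) : S v k N m (i + N) j = S v k N m i j + 1 := by
  have hN' : (N : ℝ) ≠ 0 := by exact_mod_cast hN.ne'
  unfold S
  have e : π * ((i + N : ℤ) : ℝ) / N = π * i / N + π := by push_cast; field_simp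
  rw [e, hv, hk, sg_neg]

lemma S_y {v : ℝ → ℝ → ℝ → ℝ} {k : ℕ → ℤ → ℤ → ZMod 2} {N : ℕ} (hN : 0 < N)
    (hv : ∀ t x y, v t x (y + π) = - v t x y) (hk : ∀ m i j, k m i (j + N) = k m i j + 1)
    (m : ℕ) (i j : ℤ) : S v k N m i (j + N) = S v k N m i j + 1 := by
  have hN' : (N : ℝ) ≠ 0 := by exact_mod_cast hN.ne'
  unfold S
  have e : π * ((j + N : ℤ) : ℝ) / N = π * j / N + π := by push_cast; field_simp
  rw [e, hv, hk, sg_neg]

lemma S_x0 {v : ℝ → ℝ → ℝ → ℝ} {k : ℕ → ℤ → ℤ → ZMod 2} {N : ℕ} (hN : 0 < N)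
    (hv : ∀ t x y, v t (x + π) y = v t x y) (hk : ∀ m i j, k m (i + N) j = k m i j)
    (m : ℕ) (i j : ℤ) : S v k N m (i + N) j = S v k N m i j := by
  have hN' : (N : ℝ) ≠ 0 := by exact_mod_cast hN.ne'
  unfold S
  have e : π * ((i + N : ℤ) : ℝ) / N = π * i / N + π := by push_cast; field_simp
  rw [e, hv, hk]

lemma S_y0 {v : ℝ → ℝ → ℝ → ℝ} {k : ℕ → ℤ → ℤ → ZMod 2} {N : ℕ} (hN : 0 < N)
    (hv : ∀ t x y, v t x (y + π) = v t x y) (hk : ∀ m i j, k m i (j + N) = k m i j)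
    (m : ℕ) (i j : ℤ) : S v k N m i (j + N) = S v k N m i j := by
  have hN' : (N : ℝ) ≠ 0 := by exact_mod_cast hN.ne'
  unfold S
  have e : π * ((j + N : ℤ) : ℝ) / N = π * j / N + π := by push_cast; field_simp
  rw [e, hv, hk]

/-- The tie-break for `e2`. -/
noncomputable def ks (N n M : ℕ) (t0 t1 ε0 ε1 : ℝ) (m : ℕ) (i j : ℤ) : ZMod 2 :=
  (if m = 0 then ((⌊(i : ℝ) / M - n * t0 / π⌋ : ℤ) : ZMod 2) + (if ε0 < 0 then 1 else 0)
   else if m = N then ((⌊(i : ℝ) / M - n * t1 / π⌋ : ℤ) : ZMod 2) + (if ε1 < 0 then 1 else 0)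
   else (((i / N : ℤ)) : ZMod 2)) + (((j / N : ℤ)) : ZMod 2)

lemma floor_shift {N n M : ℕ} (hn : Odd n) (hM : 0 < M) (hNM : N = n * M) (i : ℤ) (τ : ℝ) :
    ((⌊((i + N : ℤ) : ℝ) / M - τ⌋ : ℤ) : ZMod 2) = ((⌊(i : ℝ) / M - τ⌋ : ℤ) : ZMod 2) + 1 := by
  have hM' : (M : ℝ) ≠ 0 := by exact_mod_cast hM.ne'
  have e : ((i + N : ℤ) : ℝ) / M - τ = ((i : ℝ) / M - τ) + ((n : ℤ) : ℝ) := by
    rw [hNM]; push_cast; field_simp; ring
  rw [e, Int.floor_add_intCast]
  push_cast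
  rw [Pool.Agent.Helper35.BandEnd.odd_cast hn]

lemma ks_x {N n M : ℕ} (hn : Odd n) (hM : 0 < M) (hNM : N = n * M) (hN : 0 < N)
    (t0 t1 ε0 ε1 : ℝ) (m : ℕ) (i j : ℤ) :
    ks N n M t0 t1 ε0 ε1 m (i + N) j = ks N n M t0 t1 ε0 ε1 m i j + 1 := by
  unfold ks
  rw [floor_shift hn hM hNM, floor_shift hn hM hNM]
  have e : (i + N) / (N : ℤ) = i / N + 1 := Int.add_ediv_of_dvd_right (dvd_refl _) |>.trans (by
    rw [Int.ediv_self (by omega)])
  rw [e]
  push_cast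
  split_ifs <;> ring

lemma ks_y {N n M : ℕ} (hN : 0 < N)
    (t0 t1 ε0 ε1 : ℝ) (m : ℕ) (i j : ℤ) :
    ks N n M t0 t1 ε0 ε1 m i (j + N) = ks N n M t0 t1 ε0 ε1 m i j + 1 := by
  unfold ks
  have e : (j + N) / (N : ℤ) = j / N + 1 := Int.add_ediv_of_dvd_right (dvd_refl _) |>.trans (by
    rw [Int.ediv_self (by omega)])
  rw [e]
  push_cast
  ring

theorem parity_eq (e2 e3 f : ℝ → ℝ → ℝ → ℝ)
    (h2 : Continuous fun p : ℝ × ℝ × ℝ => e2 p.1 p.2.1 p.2.2)
    (h3 : Continuous fun p : ℝ × ℝ × ℝ => e3 p.1 p.2.1 p.2.2)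
    (hf : Continuous fun p : ℝ × ℝ × ℝ => f p.1 p.2.1 p.2.2)
    (e2x : ∀ t x y, e2 t (x + π) y = - e2 t x y) (e2y : ∀ t x y, e2 t x (y + π) = - e2 t x y)
    (e3x : ∀ t x y, e3 t (x + π) y = e3 t x y) (e3y : ∀ t x y, e3 t x (y + π) = - e3 t x y)
    (fx : ∀ t x y, f t (x + π) y = f t x y) (fy : ∀ t x y, f t x (y + π) = f t x y)
    (hne : ∀ t ∈ Set.Icc 0 π, ∀ x ∈ Set.Icc 0 π, ∀ y ∈ Set.Icc 0 π,
      ¬ (e2 t x y = 0 ∧ e3 t x y = 0 ∧ f t x y = 0))
    (n : ℕ) (hn : Odd n) (h30 : ∀ x y, e3 0 x y = 0) (h3π : ∀ x y, e3 π x y = 0)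
    (t0 t1 ε0 ε1 : ℝ) (hε0 : ε0 ≠ 0) (hε1 : ε1 ≠ 0)
    (h20 : ∀ x, e2 0 x 0 = ε0 * sin (n * (x - t0)))
    (h2π : ∀ x, e2 π x 0 = ε1 * sin (n * (x - t1))) :
    ∑ k ∈ range n, (if 0 < f 0 (t0 + π * k / n) 0 then (1 : ZMod 2) else 0)
      = ∑ k ∈ range n, (if 0 < f π (t1 + π * k / n) 0 then (1 : ZMod 2) else 0) := by
  obtain ⟨δ, hδ, hlow⟩ := exists_lower e2 e3 f h2 h3 hf hne
  obtain ⟨η2, hη2, hc2⟩ := exists_close e2 h2 hδ
  obtain ⟨η3, hη3, hc3⟩ := exists_close e3 h3 hδ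
  obtain ⟨ηf, hηf, hcf⟩ := exists_close f hf hδ
  have hn0 : 0 < n := hn.pos
  have hp := pi_pos
  obtain ⟨M0, hM0⟩ := exists_nat_gt (π / min η2 (min η3 ηf))
  set M : ℕ := M0 + 2 with hM
  set N : ℕ := n * M with hNM
  have hMpos : 0 < M := by omega
  have hN : 0 < N := Nat.mul_pos hn0 hMpos
  have hN' : (0 : ℝ) < N := by exact_mod_cast hN
  have hmin : 0 < min η2 (min η3 ηf) := lt_min hη2 (lt_min hη3 hηf)
  have hsmall : π / N ≤ min η2 (min η3 ηf) := by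
    rw [div_lt_iff₀ hmin] at hM0
    rw [div_le_iff₀ hN']
    have h1 : (M0 : ℝ) ≤ N := by
      have : M0 ≤ N := by
        rw [hNM]
        calc M0 ≤ M := by omega
          _ = 1 * M := (one_mul _).symm
          _ ≤ n * M := Nat.mul_le_mul_right _ hn0
      exact_mod_cast this
    nlinarith
  have hc2' : Close e2 (π / N) δ := hc2.mono (hsmall.trans (min_le_left _ _))
  have hc3' : Close e3 (π / N) δ :=
    hc3.mono (hsmall.trans ((min_le_right _ _).trans (min_le_left _ _)))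
  have hcf' : Close f (π / N) δ :=
    hcf.mono (hsmall.trans ((min_le_right _ _).trans (min_le_right _ _)))
  have hcf'' : Close (fun t x y => - f t x y) (π / N) δ := by
    intro t x y t' x' y' a1 a2 a3 a4 a5 a6 a7 a8 a9
    have := hcf' t x y t' x' y' a1 a2 a3 a4 a5 a6 a7 a8 a9
    have e : -f t x y - -f t' x' y' = -(f t x y - f t' x' y') := by ring
    simp only [e, abs_neg]
    exact this
  set χ := S (fun t x y => - f t x y) (fun _ _ _ => 0) N with hχdef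
  set s := S e2 (ks N n M t0 t1 ε0 ε1) N with hsdef
  set r := S e3 (fun _ _ j => (((j - 1) / N : ℤ) : ZMod 2)) N with hrdef
  have hcube : ∀ m i j : ℕ, m < N → i < N → j < N →
      CubeConst χ m i j ∨ CubeConst s m i j ∨ CubeConst r m i j := by
    intro m i j hm hi hj
    have hl := hlow (π * m / N) (grid_mem hN hm.le) (π * i / N) (grid_mem hN hi.le)
      (π * j / N) (grid_mem hN hj.le)
    by_cases a1 : δ ≤ |f (π * m / N) (π * i / N) (π * j / N)|
    · left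
      apply const_or hN hcf'' _ hm hi hj
      rw [abs_neg]; exact a1
    by_cases a2 : δ ≤ |e2 (π * m / N) (π * i / N) (π * j / N)|
    · right; left
      exact const_or hN hc2' _ hm hi hj a2
    · right; right
      apply const_or hN hc3' _ hm hi hj
      push Not at a1 a2
      linarith
  have hTT := T_const N χ s r
    (fun m i j => S_x0 hN (fun t x y => by rw [fx]) (fun _ _ _ => rfl) m i j)
    (fun m i j => S_y0 hN (fun t x y => by rw [fy]) (fun _ _ _ => rfl) m i j)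
    (fun m i j => S_x hN e2x (ks_x hn hMpos hNM hN t0 t1 ε0 ε1) m i j)
    (fun m i j => S_y hN e2y (ks_y hN t0 t1 ε0 ε1) m i j)
    (fun m i j => S_x0 hN e3x (fun _ _ _ => rfl) m i j)
    (fun m i j => S_y hN e3y (fun _ _ j => by
      have e : (j + N - 1) / (N : ℤ) = (j - 1) / N + 1 := by
        have : j + N - 1 = (j - 1) + N := by ring
        rw [this]
        exact Int.add_ediv_of_dvd_right (dvd_refl _) |>.trans (by rw [Int.ediv_self (by omega)])
      rw [e]; push_cast; ring) m i j) N hcube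
  have hzN : π * ((N : ℕ) : ℝ) / N = π := by field_simp
  have hz0 : π * ((0 : ℕ) : ℝ) / N = 0 := by simp
  have hkr : ∀ i j : ℕ, i ≤ N → j ≤ N →
      ((((j : ℤ) - 1) / N : ℤ) : ZMod 2) = if j = 0 then 1 else 0 := by
    intro i j _ hj
    by_cases hj0 : j = 0
    · subst hj0
      rw [if_pos rfl]
      have : (((0 : ℕ) : ℤ) - 1) / (N : ℤ) = -1 := by
        rw [Int.ediv_eq_iff_of_pos (by omega)]
        constructor <;> omega
      rw [this]; rfl
    · rw [if_neg hj0]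
      have : ((j : ℤ) - 1) / (N : ℤ) = 0 := by
        apply Int.ediv_eq_zero_of_lt <;> omega
      rw [this]; rfl
  have hr0 : ∀ i j : ℕ, i ≤ N → j ≤ N → r 0 i j = if j = 0 then 1 else 0 := by
    intro i j hi hj
    rw [hrdef]
    unfold S
    rw [hz0, h30]
    simp only [sg, lt_irrefl, if_false]
    exact hkr i j hi hj
  have hrN : ∀ i j : ℕ, i ≤ N → j ≤ N → r N i j = if j = 0 then 1 else 0 := by
    intro i j hi hj
    rw [hrdef]
    unfold S
    rw [hzN, h3π]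
    simp only [sg, lt_irrefl, if_false]
    exact hkr i j hi hj
  rw [T_row N hN _ _ _ hr0, T_row N hN _ _ _ hrN] at hTT
  -- left end
  have endgen : ∀ (m : ℕ) (t ε τ : ℝ), ε ≠ 0 → π * (m : ℝ) / N = t → t ∈ Set.Icc 0 π →
      (∀ x, e2 t x 0 = ε * sin (n * (x - τ))) → (∀ x y, e3 t x y = 0) →
      (∀ i : ℤ, ks N n M t0 t1 ε0 ε1 m i 0
        = ((⌊(i : ℝ) / M - n * τ / π⌋ : ℤ) : ZMod 2) + (if ε < 0 then 1 else 0)) →
      ∑ i ∈ range N, χ m i 0 * (s m i 0 + s m (i + 1) 0)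
        = ∑ k ∈ range n, (if 0 < f t (τ + π * k / n) 0 then (1 : ZMod 2) else 0) := by
    intro m t ε τ hε hmt ht he2 he3 hk
    have hrow := row_sin N n M hn0 (by omega) hNM τ (fun x => f t x 0)
      (fun x => fx t x 0) δ
      (fun x x' hx hx' hxx => hcf' t x 0 t x' 0 ht hx ⟨le_rfl, hp.le⟩ ht hx' ⟨le_rfl, hp.le⟩
        (by rw [sub_self, abs_zero]; positivity) hxx (by rw [sub_self, abs_zero]; positivity))
      (fun x hx hs => by
        have := hlow t ht x hx 0 ⟨le_rfl, hp.le⟩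
        rw [he2, he3, hs, mul_zero, abs_zero] at this
        simp only [zero_add] at this
        linarith)
    rw [← hrow]
    apply sum_congr rfl
    intro i hi
    have a1 : χ m i 0 = if 0 < f t (π * i / N) 0 then (1 : ZMod 2) else 0 := by
      rw [hχdef]
      unfold S
      rw [hmt]
      simp only [sg, Int.cast_natCast, Int.cast_zero, mul_zero, zero_div, Left.neg_neg_iff]
      by_cases h : 0 < f t (π * i / N) 0
      · simp [h]
      · simp [h]
    have a2 : ∀ i : ℤ, s m i 0 = ((⌊(i : ℝ) / M - n * τ / π⌋ : ℤ) : ZMod 2)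
        + (if ε < 0 then 1 else 0) := by
      intro i
      rw [hsdef]
      unfold S
      rw [hmt, hk]
      simp only [Int.cast_zero, mul_zero, zero_div]
      exact end_sign hn0 hMpos hNM hε τ (fun x => e2 t x 0) he2 i _ rfl
    rw [a1, a2, a2]
    congr 1
    push_cast
    have := add_self2 (if ε < 0 then (1 : ZMod 2) else 0)
    linear_combination this
  have hl := endgen 0 0 ε0 t0 hε0 hz0 ⟨le_rfl, hp.le⟩ h20 h30 (by
    intro i; unfold ks; simp)
  have hr' := endgen N π ε1 t1 hε1 hzN ⟨hp.le, le_rfl⟩ h2π h3π (by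
    intro i; unfold ks; rw [if_neg hN.ne', if_pos rfl]; simp)
  rw [← hl, ← hr']
  exact hTT

/-- The main topological statement: opposite end parities force a common zero. -/
theorem exists_common_zero (e2 e3 f : ℝ → ℝ → ℝ → ℝ)
    (h2 : Continuous fun p : ℝ × ℝ × ℝ => e2 p.1 p.2.1 p.2.2)
    (h3 : Continuous fun p : ℝ × ℝ × ℝ => e3 p.1 p.2.1 p.2.2)
    (hf : Continuous fun p : ℝ × ℝ × ℝ => f p.1 p.2.1 p.2.2)
    (e2x : ∀ t x y, e2 t (x + π) y = - e2 t x y) (e2y : ∀ t x y, e2 t x (y + π) = - e2 t x y)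
    (e3x : ∀ t x y, e3 t (x + π) y = e3 t x y) (e3y : ∀ t x y, e3 t x (y + π) = - e3 t x y)
    (fx : ∀ t x y, f t (x + π) y = f t x y) (fy : ∀ t x y, f t x (y + π) = f t x y)
    (n : ℕ) (hn : Odd n) (h30 : ∀ x y, e3 0 x y = 0) (h3π : ∀ x y, e3 π x y = 0)
    (t0 t1 ε0 ε1 : ℝ) (hε0 : ε0 ≠ 0) (hε1 : ε1 ≠ 0)
    (h20 : ∀ x, e2 0 x 0 = ε0 * sin (n * (x - t0)))
    (h2π : ∀ x, e2 π x 0 = ε1 * sin (n * (x - t1)))
    (κ0 κ1 : ℤ) (hκ0 : IsCoprime κ0 (n : ℤ)) (hκ1 : IsCoprime κ1 (n : ℤ)) (d0 d1 : ℝ)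
    (hf0 : ∀ x, f 0 x 0 = cos (2 * κ0 * x + d0)) (hfπ : ∀ x, f π x 0 = cos (2 * κ1 * x + d1))
    (hsign : cos (n * (2 * κ0 * t0 + d0)) * cos (n * (2 * κ1 * t1 + d1)) < 0) :
    ∃ t ∈ Set.Icc 0 π, ∃ x ∈ Set.Icc 0 π, ∃ y ∈ Set.Icc 0 π,
      e2 t x y = 0 ∧ e3 t x y = 0 ∧ f t x y = 0 := by
  by_contra hcon
  push Not at hcon
  have hpar := parity_eq e2 e3 f h2 h3 hf e2x e2y e3x e3y fx fy
    (fun t ht x hx y hy ⟨a, b, c⟩ => hcon t ht x hx y hy a b c) n hn h30 h3π t0 t1 ε0 ε1 hε0 hε1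
    h20 h2π
  have hn0 : (n : ℝ) ≠ 0 := by exact_mod_cast hn.pos.ne'
  have key : ∀ (κ : ℤ) (τ d : ℝ), IsCoprime κ (n : ℤ) → cos (n * (2 * κ * τ + d)) ≠ 0 →
      ∑ k ∈ range n, (if 0 < cos (2 * κ * (τ + π * k / n) + d) then (1 : ZMod 2) else 0)
        = if 0 < cos (n * (2 * κ * τ + d)) then 1 else 0 := by
    intro κ τ d hκ hc
    rw [← Pool.Agent.Helper35.BandEnd.cos_count n hn κ hκ (2 * κ * τ + d) hc]
    apply sum_congr rfl
    intro k _
    have e : 2 * (κ : ℝ) * (τ + π * k / n) + d = 2 * κ * τ + d + 2 * π * κ * k / n := by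
      field_simp
      ring
    rw [e]
  simp only [hf0, hfπ] at hpar
  have n0 : cos (n * (2 * κ0 * t0 + d0)) ≠ 0 := by
    intro h; rw [h, zero_mul] at hsign; exact lt_irrefl _ hsign
  have n1 : cos (n * (2 * κ1 * t1 + d1)) ≠ 0 := by
    intro h; rw [h, mul_zero] at hsign; exact lt_irrefl _ hsign
  rw [key κ0 t0 d0 hκ0 n0, key κ1 t1 d1 hκ1 n1] at hpar
  rcases lt_or_gt_of_ne n0 with h | h
  · have h' : 0 < cos (n * (2 * κ1 * t1 + d1)) := by
      by_contra hh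
      push Not at hh
      have := mul_nonneg_of_nonpos_of_nonpos h.le hh
      linarith
    rw [if_neg h.le.not_gt, if_pos h'] at hpar
    exact absurd hpar (by decide)
  · have h' : ¬ 0 < cos (n * (2 * κ1 * t1 + d1)) := by
      intro hh
      have := mul_pos h hh
      linarith
    rw [if_pos h, if_neg h'] at hpar
    exact absurd hpar (by decide)

end Pool.Agent.Helper35.BandTop
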